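import Pool.Agent.V5helper50.RS.Stm

/-!
# Project RS, job BND: crude upper bounds with high probability
-/

set_option autoImplicit false

open Finset

namespace Pool.Agent.V5helper57.RS

open Pool.Agent.V5helper50.RS

theorem R_congr {k Q j n u : ℕ} {t t' : ℕ → ℕ} (h : ∀ y < n, t y = t' y) :
    R k Q t j n u = R k Q t' j n u := by
  unfold R
  congr 1
  refine filter_congr fun x hx => ?_
  rw [Fintype.mem_piFinset] at hx
  have : ∀ i, a k Q t (x i) = a k Q t' (x i) := fun i => by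
    unfold a
    rw [h _ (mem_range.1 (hx i))]
  simp only [this]

theorem F_congr {k Q j u x : ℕ} {t t' : ℕ → ℕ} (h : ∀ y ≤ x, t y = t' y) :
    F k Q j u x t = F k Q j u x t' := by
  unfold F
  have ha : a k Q t x = a k Q t' x := by
    unfold a
    rw [h x le_rfl]
  refine sum_congr rfl fun i _ => ?_
  rw [ha, R_congr (t := t) (t' := t') fun y hy => h y hy.le]

theorem F_nonneg (k Q j u x : ℕ) (t : ℕ → ℕ) : 0 ≤ F k Q j u x t := by
  unfold F
  refine sum_nonneg fun i _ => mul_nonneg (Nat.cast_nonneg _) ?_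
  split_ifs
  · exact Nat.cast_nonneg _
  · exact le_rfl

theorem R_zero_le (k Q : ℕ) (t : ℕ → ℕ) (n u : ℕ) : R k Q t 0 n u ≤ 1 := by
  unfold R
  refine (card_filter_le _ _).trans ?_
  rw [Fintype.card_piFinset]
  simp

theorem ell_one {L : ℕ} (hL : 1 ≤ L) : (1 : ℝ) ≤ 1 + Real.log L := by
  have : 0 ≤ Real.log L := Real.log_nonneg (by exact_mod_cast hL)
  linarith

theorem mx_mono {k L i j : ℕ} (hL : 1 ≤ L) (h : i ≤ j) :
    max 1 ((L : ℝ) ^ i / (L : ℝ) ^ k) ≤ max 1 ((L : ℝ) ^ j / (L : ℝ) ^ k) := by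
  have hL1 : (1 : ℝ) ≤ L := by exact_mod_cast hL
  refine max_le_max le_rfl ?_
  exact div_le_div_of_nonneg_right (pow_le_pow_right₀ hL1 h) (by positivity)

theorem Bd_mono {k L i j : ℕ} {C C' : ℝ} (hL : 1 ≤ L) (h : i ≤ j) (hC : 0 ≤ C) (hCC : C ≤ C') :
    Bd k C i L ≤ Bd k C' j L := by
  unfold Bd
  have h1 := ell_one hL
  have h2 : (1 + Real.log L) ^ i ≤ (1 + Real.log L) ^ j := pow_le_pow_right₀ h1 h
  have h3 : (0 : ℝ) ≤ (1 + Real.log L) ^ i := by positivity
  have h4 : (0 : ℝ) ≤ max 1 ((L : ℝ) ^ i / (L : ℝ) ^ k) := zero_le_one.trans (le_max_left _ _)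
  refine mul_le_mul (mul_le_mul hCC h2 h3 (hC.trans hCC)) (mx_mono hL h) h4 ?_
  exact mul_nonneg (hC.trans hCC) (h3.trans h2)

theorem Bd_pos {k L j : ℕ} {C : ℝ} (hL : 1 ≤ L) (hC : 0 < C) : 0 < Bd k C j L := by
  unfold Bd
  have h1 := ell_one hL
  have h3 : (0 : ℝ) < (1 + Real.log L) ^ j := by positivity
  have h4 : (0 : ℝ) < max 1 ((L : ℝ) ^ j / (L : ℝ) ^ k) := zero_lt_one.trans_le (le_max_left _ _)
  positivity

theorem exp_le {k L : ℕ} (hL : 1 ≤ L) :
    (((L + 2) * ((L + 1) ^ k + 1) : ℕ) : ℝ) * Real.exp (-((k + 4 : ℕ) * (1 + Real.log L))) ≤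
      4 / (L : ℝ) ^ 2 := by
  have hL1 : (1 : ℝ) ≤ L := by exact_mod_cast hL
  have hL0 : (0 : ℝ) < L := by linarith
  have h1 : Real.exp (1 + Real.log L) = Real.exp 1 * L := by
    rw [Real.exp_add, Real.exp_log hL0]
  have h2 : (L : ℝ) + 1 ≤ Real.exp (1 + Real.log L) := by
    rw [h1]
    have := Real.add_one_le_exp (1 : ℝ)
    nlinarith
  have h3 : Real.exp (-((k + 4 : ℕ) * (1 + Real.log L))) ≤ 1 / ((L : ℝ) + 1) ^ (k + 4) := by
    rw [Real.exp_neg, Real.exp_nat_mul, ← one_div]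
    exact one_div_le_one_div_of_le (by positivity) (pow_le_pow_left₀ (by positivity) h2 _)
  have h4 : (((L + 2) * ((L + 1) ^ k + 1) : ℕ) : ℝ) ≤ 4 * ((L : ℝ) + 1) ^ (k + 1) := by
    push_cast
    have h5 : (1 : ℝ) ≤ ((L : ℝ) + 1) ^ k := one_le_pow₀ (by linarith)
    have h6 : ((L : ℝ) + 1) ^ (k + 1) = ((L : ℝ) + 1) ^ k * ((L : ℝ) + 1) := pow_succ _ _
    rw [h6]
    nlinarith
  calc (((L + 2) * ((L + 1) ^ k + 1) : ℕ) : ℝ) * Real.exp (-((k + 4 : ℕ) * (1 + Real.log L)))
      ≤ 4 * ((L : ℝ) + 1) ^ (k + 1) * (1 / ((L : ℝ) + 1) ^ (k + 4)) :=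
        mul_le_mul h4 h3 (Real.exp_pos _).le (by positivity)
    _ = 4 / ((L : ℝ) + 1) ^ 3 := by
        have h7 : ((L : ℝ) + 1) ^ (k + 4) = ((L : ℝ) + 1) ^ (k + 1) * ((L : ℝ) + 1) ^ 3 := by
          rw [← pow_add]
        rw [h7]
        have h8 : ((L : ℝ) + 1) ^ (k + 1) ≠ 0 := by positivity
        have h9 : ((L : ℝ) + 1) ^ 3 ≠ 0 := by positivity
        field_simp
    _ ≤ 4 / (L : ℝ) ^ 2 := by
        refine div_le_div_of_nonneg_left (by norm_num) (by positivity) ?_
        nlinarith [sq_nonneg (L : ℝ)]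

theorem t_BND : S_BND := by
  classical
  intro hCHU hREC hMA hMC k Q j hk hQ
  induction j with
  | zero =>
    refine ⟨1, le_rfl, fun L hL => ?_⟩
    have hL1 : (1 : ℝ) ≤ L := by exact_mod_cast hL
    refine le_trans (pr_mono (Tk_pos k) (L + 1) (E' := fun _ => False) fun t _ h => ?_) ?_
    · obtain ⟨i, hi, n, hn, u, hu, h⟩ := h
      obtain rfl : i = 0 := by omega
      have h1 : (R k Q t 0 n u : ℝ) ≤ 1 := by exact_mod_cast R_zero_le k Q t n u
      have h2 : (1 : ℝ) ≤ Bd k 1 0 L := by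
        unfold Bd
        rw [pow_zero, mul_one, one_mul]
        exact le_max_left _ _
      linarith
    · have : pr (Tk k) (L + 1) (fun _ => False) = 0 := by
        unfold pr
        simp only [if_false]
        exact av_const (Tk_pos k) _ _
      rw [this]
      positivity
  | succ j ih =>
    obtain ⟨C₁, hC₁, h1⟩ := ih
    obtain ⟨Cm, hCm, hm⟩ := hMC k Q (j + 1) hk hQ (by omega)
    have hC₁0 : (0 : ℝ) < C₁ := by linarith
    set C₂ : ℝ := C₁ + 4 + 2 * Cm + ((k + 4 : ℕ) : ℝ) * 2 ^ (j + 1) * C₁ with hC₂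
    have hp : (0 : ℝ) ≤ ((k + 4 : ℕ) : ℝ) * 2 ^ (j + 1) * C₁ := by positivity
    have hC12 : C₁ + 4 ≤ C₂ := by rw [hC₂]; linarith
    refine ⟨C₂, by linarith, fun L hL => ?_⟩
    have hL1 : (1 : ℝ) ≤ L := by exact_mod_cast hL
    have hL0 : (0 : ℝ) < L := by linarith
    have hell := ell_one hL
    set B : ℝ := 2 ^ (j + 1) * Bd k C₁ j L with hB
    have hB0 : 0 < B := mul_pos (by positivity) (Bd_pos hL hC₁0)
    set lam : ℝ := (k + 4 : ℕ) * (1 + Real.log L) with hlam
    -- the main inequality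
    have hmain : 2 * (Cm * max 1 ((L : ℝ) ^ (j + 1) / (L : ℝ) ^ k)) + lam * B ≤
        Bd k C₂ (j + 1) L := by
      set X : ℝ := max 1 ((L : ℝ) ^ (j + 1) / (L : ℝ) ^ k) with hX
      have hX0 : 0 < X := zero_lt_one.trans_le (le_max_left _ _)
      have hx : max 1 ((L : ℝ) ^ j / (L : ℝ) ^ k) ≤ X := mx_mono hL (Nat.le_succ j)
      have e1 : (1 : ℝ) ≤ (1 + Real.log L) ^ (j + 1) := one_le_pow₀ hell
      have e2 : lam * B ≤ ((k + 4 : ℕ) : ℝ) * 2 ^ (j + 1) * C₁ * (1 + Real.log L) ^ (j + 1) * X := by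
        rw [hlam, hB]
        unfold Bd
        have e3 : ((k + 4 : ℕ) : ℝ) * (1 + Real.log L) * (2 ^ (j + 1) *
            (C₁ * (1 + Real.log L) ^ j * max 1 ((L : ℝ) ^ j / (L : ℝ) ^ k))) =
            ((k + 4 : ℕ) : ℝ) * 2 ^ (j + 1) * C₁ * (1 + Real.log L) ^ (j + 1) *
              max 1 ((L : ℝ) ^ j / (L : ℝ) ^ k) := by ring
        rw [e3]
        exact mul_le_mul_of_nonneg_left hx (mul_nonneg hp (by positivity))
      have e4 : 2 * (Cm * X) ≤ 2 * Cm * (1 + Real.log L) ^ (j + 1) * X := by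
        have : 2 * Cm * 1 * X ≤ 2 * Cm * (1 + Real.log L) ^ (j + 1) * X :=
          mul_le_mul_of_nonneg_right (mul_le_mul_of_nonneg_left e1 (by positivity)) hX0.le
        linarith
      have e5 : Bd k C₂ (j + 1) L = C₂ * (1 + Real.log L) ^ (j + 1) * X := rfl
      rw [e5]
      calc 2 * (Cm * X) + lam * B
          ≤ 2 * Cm * (1 + Real.log L) ^ (j + 1) * X +
            ((k + 4 : ℕ) : ℝ) * 2 ^ (j + 1) * C₁ * (1 + Real.log L) ^ (j + 1) * X := add_le_add e4 e2
        _ = (2 * Cm + ((k + 4 : ℕ) : ℝ) * 2 ^ (j + 1) * C₁) * (1 + Real.log L) ^ (j + 1) * X := by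
            ring
        _ ≤ C₂ * (1 + Real.log L) ^ (j + 1) * X := by
            refine mul_le_mul_of_nonneg_right (mul_le_mul_of_nonneg_right ?_ (by positivity)) hX0.le
            rw [hC₂]
            linarith
    -- the functions
    let f : ℕ × ℕ → ℕ → (ℕ → ℕ) → ℝ := fun p x t =>
      if x < p.1 then F k Q (j + 1) p.2 x t else 0
    let mm : ℕ × ℕ → ℕ → ℝ := fun p x => if x < p.1 then m k Q (j + 1) p.2 x else 0
    have hf : ∀ p : ℕ × ℕ, pr (Tk k) (L + 1) (fun t => (∀ x < L + 1, f p x t ≤ B) ∧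
        2 * ∑ x ∈ range (L + 1), mm p x + lam * B ≤ ∑ x ∈ range (L + 1), f p x t) ≤
          Real.exp (-lam) := by
      intro p
      refine hCHU (Tk k) (Tk_pos k) (L + 1) (f p) (mm p) B lam hB0 ?_ ?_ ?_
      · intro x _ t
        simp only [f]
        split_ifs
        · exact F_nonneg _ _ _ _ _ _
        · exact le_rfl
      · intro x _ t t' h
        simp only [f]
        split_ifs
        · exact F_congr h
        · rfl
      · intro x _ t ht
        simp only [f, mm]
        split_ifs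
        · exact hMA k Q (j + 1) p.2 x hk hQ (by omega) t ht
        · simp
    set S : Finset (ℕ × ℕ) := range (L + 2) ×ˢ range ((L + 1) ^ k + 1) with hS
    have hcard : (S.card : ℝ) = (((L + 2) * ((L + 1) ^ k + 1) : ℕ) : ℝ) := by
      rw [hS, card_product, card_range, card_range]
    have hsub : pr (Tk k) (L + 1) (fun t => ∃ i ≤ j + 1, ∃ n ≤ L + 1, ∃ u ≤ (L + 1) ^ k,
        Bd k C₂ i L < (R k Q t i n u : ℝ)) ≤
        pr (Tk k) (L + 1) (fun t => (∃ i ≤ j, ∃ n ≤ L + 1, ∃ u ≤ (L + 1) ^ k,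
          Bd k C₁ i L < (R k Q t i n u : ℝ)) ∨ ∃ p ∈ S, (∀ x < L + 1, f p x t ≤ B) ∧
            2 * ∑ x ∈ range (L + 1), mm p x + lam * B ≤ ∑ x ∈ range (L + 1), f p x t) := by
      refine pr_mono (Tk_pos k) _ fun t ht h => ?_
      by_cases hE : ∃ i ≤ j, ∃ n ≤ L + 1, ∃ u ≤ (L + 1) ^ k, Bd k C₁ i L < (R k Q t i n u : ℝ)
      · exact Or.inl hE
      · right
        obtain ⟨i, hi, n, hn, u, hu, h⟩ := h
        have hE' : ∀ i ≤ j, ∀ n ≤ L + 1, ∀ u ≤ (L + 1) ^ k, (R k Q t i n u : ℝ) ≤ Bd k C₁ i L := by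
          intro i hi n hn u hu
          by_contra hc
          exact hE ⟨i, hi, n, hn, u, hu, not_le.1 hc⟩
        have hij : i = j + 1 := by
          by_contra hne
          have hi' : i ≤ j := by omega
          have h2 := hE' i hi' n hn u hu
          have h3 : Bd k C₁ i L ≤ Bd k C₂ i L := Bd_mono hL le_rfl hC₁0.le (by linarith)
          linarith
        subst hij
        refine ⟨(n, u), ?_, ?_, ?_⟩
        · rw [hS, mem_product, mem_range, mem_range]
          exact ⟨by simp only; omega, by simp only; omega⟩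
        · intro x hx
          simp only [f]
          split_ifs
          · unfold F
            have h4 : ∀ i ∈ Icc 1 (j + 1), ((j + 1).choose i : ℝ) *
                (if i * a k Q t x ≤ u then (R k Q t (j + 1 - i) x (u - i * a k Q t x) : ℝ) else 0) ≤
                ((j + 1).choose i : ℝ) * Bd k C₁ j L := by
              intro i hi
              rw [mem_Icc] at hi
              refine mul_le_mul_of_nonneg_left ?_ (Nat.cast_nonneg _)
              split_ifs
              · exact (hE' (j + 1 - i) (by omega) x (by omega) _ (by omega)).trans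
                  (Bd_mono hL (by omega) hC₁0.le le_rfl)
              · exact (Bd_pos hL hC₁0).le
            refine (sum_le_sum h4).trans ?_
            rw [← sum_mul, hB]
            refine mul_le_mul_of_nonneg_right ?_ (Bd_pos hL hC₁0).le
            have h5 : ∑ i ∈ range (j + 1 + 1), ((j + 1).choose i : ℝ) = 2 ^ (j + 1) := by
              exact_mod_cast Nat.sum_range_choose (j + 1)
            rw [← h5]
            refine sum_le_sum_of_subset_of_nonneg (fun i hi => ?_) fun _ _ _ => Nat.cast_nonneg _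
            rw [mem_Icc] at hi
            rw [mem_range]
            omega
          · exact hB0.le
        · have h6 : ∑ x ∈ range (L + 1), f (n, u) x t = ∑ x ∈ range n, F k Q (j + 1) u x t := by
            simp only [f]
            rw [← sum_filter]
            refine sum_congr ?_ fun _ _ => rfl
            ext x
            simp only [mem_filter, mem_range]
            omega
          have h7 : ∑ x ∈ range (L + 1), mm (n, u) x = ∑ x ∈ range n, m k Q (j + 1) u x := by
            simp only [mm]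
            rw [← sum_filter]
            refine sum_congr ?_ fun _ _ => rfl
            ext x
            simp only [mem_filter, mem_range]
            omega
          rw [h6, h7, ← hREC k Q t (j + 1) n u (by omega)]
          have h8 := hm L u n hL hu
          have h9 : 2 * ∑ x ∈ range n, m k Q (j + 1) u x ≤
              2 * (Cm * max 1 ((L : ℝ) ^ (j + 1) / (L : ℝ) ^ k)) := by linarith
          linarith
    refine hsub.trans ((pr_or (Tk_pos k) _ _ _).trans ?_)
    have h10 : pr (Tk k) (L + 1) (fun t => ∃ p ∈ S, (∀ x < L + 1, f p x t ≤ B) ∧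
            2 * ∑ x ∈ range (L + 1), mm p x + lam * B ≤ ∑ x ∈ range (L + 1), f p x t) ≤
        4 / (L : ℝ) ^ 2 := by
      refine (pr_union (Tk_pos k) (L + 1) S _).trans ((sum_le_sum fun p _ => hf p).trans ?_)
      rw [sum_const, nsmul_eq_mul, hcard, hlam]
      exact exp_le hL
    calc _ ≤ C₁ / (L : ℝ) ^ 2 + 4 / (L : ℝ) ^ 2 := add_le_add (h1 L hL) h10
      _ = (C₁ + 4) / (L : ℝ) ^ 2 := by ring
      _ ≤ C₂ / (L : ℝ) ^ 2 := div_le_div_of_nonneg_right hC12 (by positivity)

end Pool.Agent.V5helper57.RS
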